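import Pool.Agent.Helper42.SG.GoalsP
import Pool.Agent.Helper29.BL.QSN
import Pool.Agent.Helper20.BL.PACK

/-!
# Project SG, packet SGM-CLS: the pigeonhole classes

`g i` is the natural number with `2 ^ g i * √H(z_i) ≤ R < 2 ^ (g i + 1) * √H(z_i)`, `R = √H(z_m)`;
PACK is used with `κ = max 1 (4 / θ)` and `ρ = θ R / 2`.
-/

set_option autoImplicit false

namespace Pool.Agent.Helper54.SGM

open Pool.Agent.Helper29.BL

theorem t_CLS : Pool.Agent.Helper42.SG.CLS := by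
  intro G _ Γ hΓ H hH θ hθ
  have hκ : (1 : ℝ) ≤ max 1 (4 / θ) := le_max_left _ _
  obtain ⟨N, hN⟩ := (pack : PACK) G Γ hΓ H hH (max 1 (4 / θ)) hκ
  refine ⟨N, fun m z hz h0 hmono => ?_⟩
  have hm : Monotone fun i => H (z i) := monotone_nat_of_le_succ hmono
  have hpos : ∀ i, 0 < H (z i) := fun i => lt_of_lt_of_le h0 (hm (Nat.zero_le i))
  have hsp : ∀ i, 0 < √(H (z i)) := fun i => Real.sqrt_pos.mpr (hpos i)
  have hR : 0 < √(H (z m)) := hsp m
  have hex : ∀ i, ∃ g : ℕ, i ≤ m →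
      2 ^ g * √(H (z i)) ≤ √(H (z m)) ∧ √(H (z m)) < 2 ^ (g + 1) * √(H (z i)) := by
    intro i
    by_cases hi : i ≤ m
    · have h1 : (1 : ℝ) ≤ √(H (z m)) / √(H (z i)) := by
        rw [le_div_iff₀ (hsp i), one_mul]
        exact Real.sqrt_le_sqrt (hm hi)
      obtain ⟨g, hg1, hg2⟩ := exists_nat_pow_near h1 (one_lt_two (α := ℝ))
      refine ⟨g, fun _ => ⟨?_, ?_⟩⟩
      · rwa [le_div_iff₀ (hsp i)] at hg1
      · rwa [div_lt_iff₀ (hsp i)] at hg2
    · exact ⟨0, fun h => absurd h hi⟩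
  choose g hg using hex
  set R : ℝ := √(H (z m)) with hRdef
  have hsq : ∀ i, √(H ((2 ^ g i) • z i)) = 2 ^ g i * √(H (z i)) := by
    intro i
    rw [hH.nsmul]
    push_cast
    rw [Real.sqrt_mul (by positivity), Real.sqrt_sq (by positivity)]
  have hdist : ∀ x y : G, √(H (x - y)) ≤ √(H x) + √(H y) := by
    intro x y
    have h := hH.triangle x (-y)
    rwa [hH.neg, ← sub_eq_add_neg] at h
  classical
  set B : Finset G := (Finset.range (m + 1)).image fun i => (2 ^ g i) • z i with hB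
  have hBm : ∀ i, i ≤ m → (2 ^ g i) • z i ∈ B := fun i hi =>
    Finset.mem_image_of_mem _ (Finset.mem_range.mpr (Nat.lt_succ_of_le hi))
  have hBR : ∀ w ∈ B, √(H w) ≤ R := by
    intro w hw
    obtain ⟨i, hi, rfl⟩ := Finset.mem_image.mp hw
    have hi' : i ≤ m := Nat.le_of_lt_succ (Finset.mem_range.mp hi)
    rw [hsq]
    exact (hg i hi').1
  obtain ⟨f, hf⟩ := hN B
    (fun w hw => by
      obtain ⟨i, _, rfl⟩ := Finset.mem_image.mp hw
      exact Γ.nsmul_mem (hz i) _)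
    (θ * R / 2) (by positivity)
    (fun w hw w' hw' => by
      have h1 := hdist w w'
      have h2 := hBR w hw
      have h3 := hBR w' hw'
      have h4 : (4 / θ) * (θ * R / 2) ≤ max 1 (4 / θ) * (θ * R / 2) :=
        mul_le_mul_of_nonneg_right (le_max_right _ _) (by positivity)
      have h5 : (4 / θ) * (θ * R / 2) = 2 * R := by
        field_simp
        ring
      linarith)
  refine ⟨fun i => f ((2 ^ g i) • z i), fun i j hij hj hfe => ?_⟩
  have hi : i ≤ m := hij.le.trans hj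
  have hle : g j ≤ g i := by
    by_contra hlt
    push Not at hlt
    have h1 := (hg i hi).2
    have h2 := (hg j hj).1
    have h3 : (2 : ℝ) ^ (g i + 1) ≤ 2 ^ g j := pow_le_pow_right₀ (by norm_num) hlt
    have h4 : √(H (z i)) ≤ √(H (z j)) := Real.sqrt_le_sqrt (hm hij.le)
    have h5 : (2 : ℝ) ^ (g i + 1) * √(H (z i)) ≤ 2 ^ g j * √(H (z j)) :=
      mul_le_mul h3 h4 (Real.sqrt_nonneg _) (by positivity)
    linarith
  refine ⟨g i - g j, ?_⟩
  have h1 := hf _ (hBm i hi) _ (hBm j hj) hfe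
  have h2 : (2 ^ g i) • z i - (2 ^ g j) • z j =
      (2 ^ g j) • ((2 ^ (g i - g j)) • z i - z j) := by
    rw [smul_sub, ← mul_smul, ← pow_add, Nat.add_sub_cancel' hle]
  have h3 := (hg j hj).2
  have h4 : √(H ((2 ^ g i) • z i - (2 ^ g j) • z j)) ≤ θ * (2 ^ g j * √(H (z j))) := by
    have h5 : R ≤ 2 * (2 ^ g j * √(H (z j))) := by
      rw [pow_succ] at h3
      linarith
    have h6 : θ * R ≤ θ * (2 * (2 ^ g j * √(H (z j)))) := mul_le_mul_of_nonneg_left h5 hθ.le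
    linarith
  have h7 : H ((2 ^ g i) • z i - (2 ^ g j) • z j) ≤ (θ * (2 ^ g j * √(H (z j)))) ^ 2 := by
    rw [← Real.sq_sqrt (hH.nonneg ((2 ^ g i) • z i - (2 ^ g j) • z j))]
    exact pow_le_pow_left₀ (Real.sqrt_nonneg _) h4 2
  rw [h2, hH.nsmul, mul_pow, mul_pow, Real.sq_sqrt (hpos j).le] at h7
  push_cast at h7
  have h8 : (0 : ℝ) < (2 ^ g j) ^ 2 := by positivity
  refine le_of_mul_le_mul_left (a := ((2 : ℝ) ^ g j) ^ 2) ?_ h8
  calc ((2 : ℝ) ^ g j) ^ 2 * H ((2 ^ (g i - g j)) • z i - z j)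
      ≤ θ ^ 2 * (((2 : ℝ) ^ g j) ^ 2 * H (z j)) := h7
    _ = ((2 : ℝ) ^ g j) ^ 2 * (θ ^ 2 * H (z j)) := by ring

end Pool.Agent.Helper54.SGM
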